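import Pool.Agent.Helper87.ETC.Ord
import Pool.Agent.Helper31.ETC.R2

/-!
# ETC-R3
-/

set_option autoImplicit false

namespace Pool.Helper37.ETC

section Galois

variable {p : ℕ} [Fact p.Prime] {G K : Type*} [Group G] [TopologicalSpace G]
  [IsTopologicalGroup G] [CompactSpace G] [T2Space G] [TotallyDisconnectedSpace G] [Field K]
  [MulSemiringAction G K] {ζ : K}

/-- R3 (uses R2) -/
theorem nonarch_involution (Gd : Good 2 G K ζ) (c : G) (hc : c * c = 1) (hc1 : c ≠ 1)
    (h : ¬ ArchInv K c) : ∃ O : ValuationSubring K, O ≠ ⊤ ∧ c ∈ Zg G O := by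
  obtain ⟨h1, h2, h3, i, hi, hci⟩ := involution_struct Gd c hc hc1
  obtain ⟨R, _, _, _, j, hj, hpos⟩ := exists_order c h1 h2 h3
  have hcc : ∀ x : K, c • c • x = x := by
    intro x
    rw [smul_smul, hc, one_smul]
  have h20 : (2 : K) ≠ 0 := by
    have h4 : (2 : R) ≠ 0 := two_ne_zero
    intro h5
    apply h4
    apply j.injective
    rw [map_zero, ← h5, map_ofNat]
  have hi0 : i ≠ 0 := by
    rintro rfl
    have h4 : (1 : K) = 0 := by
      rw [← neg_eq_zero, ← hi]
      exact zero_pow two_ne_zero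
    exact one_ne_zero h4
  have hcr : ∀ r : R, c • j r = j r := fun r => (hj _).2 ⟨r, rfl⟩
  -- real and imaginary parts
  have hre : ∀ x : K, ∃ r s : R, x = j r + i * j s := by
    intro x
    obtain ⟨r, hr⟩ := (hj ((x + c • x) / 2)).1 (by
      rw [smul_div₀', smul_add, hcc, add_comm (c • x)]
      congr 1
      rw [← one_add_one_eq_two, smul_add, smul_one])
    obtain ⟨s, hs⟩ := (hj ((x - c • x) / (2 * i))).1 (by
      have h5 : c • (2 : K) = 2 := by rw [← one_add_one_eq_two, smul_add, smul_one]
      rw [smul_div₀', smul_sub, hcc, smul_mul', hci, h5]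
      field_simp
      ring)
    refine ⟨r, s, ?_⟩
    rw [hr, hs]
    field_simp
    ring
  -- the norm
  have hN : ∀ x : K, ∃ r : R, 0 ≤ r ∧ j r = x * c • x := by
    intro x
    obtain ⟨r, s, hx⟩ := hre x
    refine ⟨r * r + s * s, add_nonneg (mul_self_nonneg r) (mul_self_nonneg s), ?_⟩
    rw [hx, smul_add, smul_mul', hci, hcr, hcr]
    simp only [map_add, map_mul]
    linear_combination (j s * j s) * hi
  choose N hN0 hNj using hN
  have hNmul : ∀ x y, N (x * y) = N x * N y := by
    intro x y
    apply j.injective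
    rw [map_mul, hNj, hNj, hNj, smul_mul']
    ring
  have hNneg : ∀ x, N (-x) = N x := by
    intro x
    apply j.injective
    rw [hNj, hNj, smul_neg]
    ring
  have hNpar : ∀ x y, N (x + y) + N (x - y) = 2 * N x + 2 * N y := by
    intro x y
    apply j.injective
    simp only [map_add, map_mul, map_ofNat, hNj, smul_add, smul_sub]
    ring
  have hNc : ∀ x, N (c • x) = N x := by
    intro x
    apply j.injective
    rw [hNj, hNj, hcc, mul_comm]
  have hN1 : N 1 = 1 := by
    apply j.injective
    rw [hNj, smul_one, map_one, mul_one]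
  have hN0' : N 0 = 0 := by
    apply j.injective
    rw [hNj, zero_mul, map_zero]
  let O : ValuationSubring K :=
    { carrier := {x | ∃ n : ℕ, N x ≤ n}
      mul_mem' := by
        rintro a b ⟨m, hm⟩ ⟨n, hn⟩
        refine ⟨m * n, ?_⟩
        rw [hNmul, Nat.cast_mul]
        exact mul_le_mul hm hn (hN0 b) (Nat.cast_nonneg m)
      one_mem' := ⟨1, by rw [hN1, Nat.cast_one]⟩
      add_mem' := by
        rintro a b ⟨m, hm⟩ ⟨n, hn⟩
        refine ⟨2 * m + 2 * n, ?_⟩
        have h4 := hNpar a b
        have h5 := hN0 (a - b)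
        push_cast
        linarith
      zero_mem' := ⟨0, by rw [hN0', Nat.cast_zero]⟩
      neg_mem' := by
        rintro a ⟨m, hm⟩
        exact ⟨m, by rw [hNneg]; exact hm⟩
      mem_or_inv_mem' := by
        intro x
        by_cases hx : x = 0
        · left
          exact ⟨0, by rw [hx, hN0', Nat.cast_zero]⟩
        rcases le_total (N x) 1 with h4 | h4
        · left
          exact ⟨1, by rw [Nat.cast_one]; exact h4⟩
        · right
          refine ⟨1, ?_⟩
          have h5 : N x * N x⁻¹ = 1 := by rw [← hNmul, mul_inv_cancel₀ hx, hN1]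
          rw [Nat.cast_one]
          nlinarith [hN0 x⁻¹, hN0 x] }
  have hO : ∀ x, x ∈ O ↔ ∃ n : ℕ, N x ≤ n := fun x => Iff.rfl
  refine ⟨O, ?_, ?_⟩
  · intro htop
    apply h
    intro x hx
    obtain ⟨r, hr⟩ := (hj x).1 hx
    have h4 : x ∈ O := by rw [htop]; trivial
    obtain ⟨n, hn⟩ := (hO x).1 h4
    have h5 : N x = r * r := by
      apply j.injective
      rw [hNj, hx, map_mul, hr]
    refine ⟨n + 1, ?_⟩
    have h6 : r < (n + 1 : ℕ) := by
      rw [h5] at hn
      push_cast
      nlinarith [sq_nonneg (r - 1), sq_nonneg r]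
    rw [← sub_pos, hpos, map_sub, map_natCast, hr] at h6
    exact h6
  · intro x
    rw [hO, hO, hNc]

end Galois

end Pool.Helper37.ETC
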