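import Pool.Agent.Helper37.ETC.Defs

/-!
# Two embeddings which agree on the fixed field
-/

set_option autoImplicit false

namespace Pool.Helper37.ETC

open Polynomial

/-- one element -/
theorem exists_smul_of_agree {G R L : Type*} [Group G] [CommRing R] [MulSemiringAction G R]
    [CommRing L] [IsDomain L]
    (ι ι' : R →+* L) (h : ∀ x : R, (∀ g : G, g • x = x) → ι x = ι' x) (x : R)
    (hfin : (Set.range fun g : G => g • x).Finite) :
    ∃ g : G, ι' x = ι (g • x) := by
  classical
  let O : Finset R := hfin.toFinset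
  have hO : ∀ y, y ∈ O ↔ ∃ g : G, g • x = y := fun y => by
    rw [Set.Finite.mem_toFinset]
    rfl
  let P : R[X] := ∏ y ∈ O, (X - C y)
  have hP : ∀ g : G, P.map (MulSemiringAction.toRingHom G R g) = P := by
    intro g
    have h1 : P.map (MulSemiringAction.toRingHom G R g) = ∏ y ∈ O, (X - C (g • y)) := by
      rw [Polynomial.map_prod]
      refine Finset.prod_congr rfl fun y _ => ?_
      rw [Polynomial.map_sub, map_X, map_C]
      rfl
    rw [h1]
    refine Finset.prod_bij (fun y _ => g • y) ?_ ?_ ?_ ?_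
    · intro y hy
      obtain ⟨s, hs⟩ := (hO y).1 hy
      exact (hO _).2 ⟨g * s, by rw [mul_smul, hs]⟩
    · intro y _ z _ hyz
      exact (smul_left_cancel_iff g).1 hyz
    · intro y hy
      obtain ⟨s, hs⟩ := (hO y).1 hy
      refine ⟨g⁻¹ • y, (hO _).2 ⟨g⁻¹ * s, by rw [mul_smul, hs]⟩, smul_inv_smul g y⟩
    · intro y _
      rfl
  have hPP : P.map ι = P.map ι' := by
    ext n
    rw [coeff_map, coeff_map]
    apply h
    intro g
    have h1 := congrArg (fun q : R[X] => q.coeff n) (hP g)
    simp only [coeff_map] at h1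
    exact h1
  have h0 : eval x P = 0 := by
    rw [eval_prod]
    apply Finset.prod_eq_zero ((hO x).2 ⟨1, one_smul G x⟩)
    rw [eval_sub, eval_X, eval_C, sub_self]
  have h1 : eval (ι' x) (P.map ι) = 0 := by
    rw [hPP, eval_map, eval₂_at_apply, h0, map_zero]
  rw [Polynomial.map_prod, eval_prod, Finset.prod_eq_zero_iff] at h1
  obtain ⟨y, hy, h2⟩ := h1
  rw [Polynomial.map_sub, map_X, map_C, eval_sub, eval_X, eval_C, sub_eq_zero] at h2
  obtain ⟨g, hg⟩ := (hO y).1 hy
  exact ⟨g, by rw [h2, hg]⟩

/-- all elements -/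
theorem exists_smul_all {G K L : Type*} [Group G] [TopologicalSpace G]
    [IsTopologicalGroup G] [CompactSpace G] [Field K] [MulSemiringAction G K]
    (hc : ∀ x : K, IsOpen {σ : G | σ • x = x}) [CommRing L] [IsDomain L]
    (ι ι' : K →+* L) (h : ∀ x ∈ (Fx G : Set K), ι x = ι' x) :
    ∃ g : G, ∀ x : K, ι' x = ι (g • x) := by
  classical
  -- the orbit maps are locally constant
  have hlc : ∀ x : K, IsLocallyConstant (fun g : G => g • x) := by
    intro x
    rw [IsLocallyConstant.iff_exists_open]
    intro g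
    refine ⟨(fun s : G => g⁻¹ * s) ⁻¹' {σ : G | σ • x = x},
      (hc x).preimage (continuous_const_mul g⁻¹), ?_, ?_⟩
    · change (g⁻¹ * g) • x = x
      rw [inv_mul_cancel, one_smul]
    · intro s hs
      have h1 : (g⁻¹ * s) • x = x := hs
      rw [mul_smul, inv_smul_eq_iff] at h1
      exact h1
  have hfin : ∀ u : Finset K, ∃ g : G, ∀ x ∈ u, ι' x = ι (g • x) := by
    intro u
    let e : u ≃ Fin u.card := u.equivFin
    let Φ : (u → K) → K[X] := fun a => ∑ x : u, C (a x) * X ^ (e x : ℕ)
    have hcoeff : ∀ (a : u → K) (x : u), (Φ a).coeff (e x : ℕ) = a x := by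
      intro a x
      change (∑ y : u, C (a y) * X ^ (e y : ℕ)).coeff (e x : ℕ) = a x
      rw [finset_sum_coeff, Finset.sum_eq_single x]
      · rw [coeff_C_mul, coeff_X_pow, if_pos rfl, mul_one]
      · intro y _ hy
        rw [coeff_C_mul, coeff_X_pow, if_neg, mul_zero]
        intro h1
        exact hy (e.injective (Fin.ext h1.symm))
      · intro h1
        exact absurd (Finset.mem_univ x) h1
    have hΦ : ∀ (g : G) (a : u → K), g • Φ a = Φ (fun x => g • a x) := by
      intro g a
      change g • (∑ y : u, C (a y) * X ^ (e y : ℕ)) = ∑ y : u, C (g • a y) * X ^ (e y : ℕ)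
      rw [Finset.smul_sum]
      refine Finset.sum_congr rfl fun y _ => ?_
      rw [smul_mul', smul_pow', smul_X, smul_C]
    let F : K[X] := Φ (fun x => (x : K))
    have hF : (Set.range fun g : G => g • F).Finite := by
      have h1 : (Set.pi Set.univ (fun x : u => Set.range fun g : G => g • (x : K))).Finite :=
        Set.Finite.pi fun x => (hlc x).range_finite
      refine (h1.image Φ).subset ?_
      rintro _ ⟨g, rfl⟩
      exact ⟨fun x => g • (x : K), fun x _ => ⟨g, rfl⟩, (hΦ g _).symm⟩
    obtain ⟨g, hg⟩ := exists_smul_of_agree (G := G) (mapRingHom ι) (mapRingHom ι') (by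
      intro Q hQ
      ext n
      rw [coe_mapRingHom, coe_mapRingHom, coeff_map, coeff_map]
      apply h
      intro g
      have h1 := congrArg (fun q : K[X] => q.coeff n) (hQ g)
      exact h1) F hF
    refine ⟨g, fun x hx => ?_⟩
    have h1 := congrArg (fun q : L[X] => q.coeff (e ⟨x, hx⟩ : ℕ)) hg
    simp only [coe_mapRingHom, coeff_map, F, hΦ, hcoeff] at h1
    exact h1
  have hne : (⋂ x : K, {g : G | ι' x = ι (g • x)}).Nonempty := by
    apply CompactSpace.iInter_nonempty
    · intro x
      rw [← isOpen_compl_iff]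
      exact (hlc x) {y : K | ι' x = ι y}ᶜ
    · intro u
      obtain ⟨g, hg⟩ := hfin u
      exact ⟨g, Set.mem_iInter₂.2 hg⟩
  obtain ⟨g, hg⟩ := hne
  exact ⟨g, Set.mem_iInter.1 hg⟩

end Pool.Helper37.ETC
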