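import Pool.Agent.Helper87.ETC.Ord
import Pool.Agent.Helper87.ETC.Agree
import Pool.Agent.Helper31.ETC.R2

/-!
# ETC-R3, ETC-R4
-/

set_option autoImplicit false

namespace Pool.Helper37.ETC

universe u v

section

variable {G : Type v} {K : Type u} [Group G] [TopologicalSpace G]
  [IsTopologicalGroup G] [CompactSpace G] [T2Space G] [TotallyDisconnectedSpace G] [Field K]
  [MulSemiringAction G K] {ζ : K}

/-- the complex embedding attached to an archimedean involution -/
theorem exists_embedding (Gd : Good 2 G K ζ) (c : G) (hc : c * c = 1) (hc1 : c ≠ 1)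
    (h : ArchInv K c) :
    ∃ ι : K →+* ℂ, (∀ x, ι (c • x) = (starRingEnd ℂ) (ι x)) ∧
      ∀ x : K, c • x = x → ∀ q : ℚ, (q : ℝ) < (ι x).re ↔ x - (q : K) ∈ (Pc c : Set K) := by
  obtain ⟨h1, h2, h3, i, hi, hci⟩ := involution_struct Gd c hc hc1
  obtain ⟨R, _, _, _, j, hj, hpos⟩ := exists_order c h1 h2 h3
  have hcc : ∀ x : K, c • c • x = x := by
    intro x
    rw [smul_smul, hc, one_smul]
  haveI : Archimedean R := by
    rw [archimedean_iff_nat_lt]
    intro r
    obtain ⟨n, hn⟩ := h (j r) ((hj _).2 ⟨r, rfl⟩)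
    refine ⟨n, ?_⟩
    rw [← sub_pos, hpos, map_sub, map_natCast]
    exact hn
  have h20 : (2 : K) ≠ 0 := by
    have h4 : (2 : R) ≠ 0 := two_ne_zero
    intro h5
    apply h4
    apply j.injective
    rw [map_zero, ← h5, map_ofNat]
  have hi0 : i ≠ 0 := by
    rintro rfl
    have h4 : (1 : K) = 0 := by
      rw [← neg_eq_zero, ← hi]
      exact zero_pow two_ne_zero
    exact one_ne_zero h4
  let f : R →+*o ℝ := LinearOrderedField.inducedOrderRingHom R ℝ
  -- real and imaginary parts
  have hre : ∀ x : K, ∃ r s : R, x = j r + i * j s := by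
    intro x
    obtain ⟨r, hr⟩ := (hj ((x + c • x) / 2)).1 (by
      rw [smul_div₀', smul_add, hcc, add_comm (c • x)]
      congr 1
      rw [← one_add_one_eq_two, smul_add, smul_one])
    obtain ⟨s, hs⟩ := (hj ((x - c • x) / (2 * i))).1 (by
      have h5 : c • (2 : K) = 2 := by rw [← one_add_one_eq_two, smul_add, smul_one]
      rw [smul_div₀', smul_sub, hcc, smul_mul', hci, h5]
      field_simp
      ring)
    refine ⟨r, s, ?_⟩
    rw [hr, hs]
    field_simp
    ring
  choose re im hri using hre
  have huniq : ∀ r s r' s' : R, j r + i * j s = j r' + i * j s' → r = r' ∧ s = s' := by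
    intro r s r' s' h4
    have h5 := congrArg (fun x => c • x) h4
    simp only [smul_add, smul_mul', hci, (hj _).2 ⟨_, rfl⟩] at h5
    have h6 : (2 : K) * j r = 2 * j r' := by linear_combination h4 + h5
    have h7 : (2 : K) * i * j s = 2 * i * j s' := by linear_combination h4 - h5
    exact ⟨j.injective (mul_left_cancel₀ h20 h6),
      j.injective (mul_left_cancel₀ (mul_ne_zero h20 hi0) h7)⟩
  have hre' : ∀ r s : R, re (j r + i * j s) = r ∧ im (j r + i * j s) = s := by
    intro r s
    obtain ⟨h4, h5⟩ := huniq _ _ _ _ (hri (j r + i * j s))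
    exact ⟨h4.symm, h5.symm⟩
  let ι : K →+* ℂ :=
    { toFun := fun x => (f (re x) : ℂ) + Complex.I * (f (im x) : ℂ)
      map_one' := by
        obtain ⟨h4, h5⟩ := hre' 1 0
        rw [map_one, map_zero, mul_zero, add_zero] at h4 h5
        rw [h4, h5]
        simp
      map_zero' := by
        obtain ⟨h4, h5⟩ := hre' 0 0
        rw [map_zero, mul_zero, add_zero] at h4 h5
        rw [h4, h5]
        simp
      map_add' := by
        intro x y
        obtain ⟨h4, h5⟩ := hre' (re x + re y) (im x + im y)
        have h6 : j (re x + re y) + i * j (im x + im y) = x + y := by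
          rw [map_add, map_add]
          linear_combination -(hri x) - hri y
        rw [h6] at h4 h5
        rw [h4, h5, map_add, map_add]
        push_cast
        ring
      map_mul' := by
        intro x y
        obtain ⟨h4, h5⟩ := hre' (re x * re y - im x * im y) (re x * im y + im x * re y)
        have h6 : j (re x * re y - im x * im y) + i * j (re x * im y + im x * re y) = x * y := by
          conv_rhs => rw [hri x, hri y]
          simp only [map_add, map_sub, map_mul]
          linear_combination -(j (im x) * j (im y)) * hi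
        rw [h6] at h4 h5
        rw [h4, h5]
        simp only [map_add, map_sub, map_mul]
        push_cast
        linear_combination -((f (im x) : ℂ) * (f (im y) : ℂ)) * Complex.I_sq }
  have hι : ∀ x, ι x = (f (re x) : ℂ) + Complex.I * (f (im x) : ℂ) := fun x => rfl
  refine ⟨ι, ?_, ?_⟩
  · intro x
    obtain ⟨h4, h5⟩ := hre' (re x) (-im x)
    have h6 : j (re x) + i * j (-im x) = c • x := by
      conv_rhs => rw [hri x]
      rw [smul_add, smul_mul', hci, (hj (j (re x))).2 ⟨_, rfl⟩, (hj (j (im x))).2 ⟨_, rfl⟩, map_neg]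
      ring
    rw [h6] at h4 h5
    rw [hι, hι, h4, h5, map_add, map_mul, Complex.conj_I, Complex.conj_ofReal,
      Complex.conj_ofReal, map_neg]
    push_cast
    ring
  · intro x hx q
    obtain ⟨r, hr⟩ := (hj x).1 hx
    obtain ⟨h4, h5⟩ := hre' r 0
    rw [map_zero, mul_zero, add_zero, hr] at h4 h5
    have h6 : (ι x).re = f r := by
      rw [hι, h4, h5]
      simp
    rw [h6]
    have h7 : (q : ℝ) = f (q : R) := (map_ratCast f q).symm
    have hmono : StrictMono f := f.monotone'.strictMono_of_injective f.toRingHom.injective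
    rw [h7, hmono.lt_iff_lt, ← sub_pos, hpos, map_sub, map_ratCast, hr]

end

section Galois

variable {p : ℕ} [Fact p.Prime] {G K : Type*} [Group G] [TopologicalSpace G]
  [IsTopologicalGroup G] [CompactSpace G] [T2Space G] [TotallyDisconnectedSpace G] [Field K]
  [MulSemiringAction G K] {ζ : K}

/-- R4 (uses R2) -/
theorem arch_conj (Gd : Good 2 G K ζ) (c c' : G) (hc : c * c = 1) (hc1 : c ≠ 1)
    (hc' : c' * c' = 1) (hc1' : c' ≠ 1) (h : ArchInv K c) (h' : ArchInv K c')
    (hE : ∀ x ∈ (Fx G : Set K), x ∈ (Pc c : Set K) ↔ x ∈ (Pc c' : Set K)) :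
    ∃ g : G, c' = g * c * g⁻¹ := by
  obtain ⟨ι, h1, h2⟩ := exists_embedding Gd c hc hc1 h
  obtain ⟨ι', h1', h2'⟩ := exists_embedding Gd c' hc' hc1' h'
  have hFxq : ∀ q : ℚ, (q : K) ∈ (Fx G : Set K) := fun q g =>
    map_ratCast (MulSemiringAction.toRingHom G K g) q
  have hagree : ∀ x ∈ (Fx G : Set K), ι x = ι' x := by
    intro x hx
    apply Complex.ext
    · apply eq_of_forall_rat_lt_iff_lt
      intro q
      rw [h2 x (hx c) q, h2' x (hx c') q]
      apply hE
      intro g
      rw [smul_sub, hx g, hFxq q g]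
    · have h3 : (ι x).im = 0 := by
        have h4 := h1 x
        rw [hx c] at h4
        exact Complex.conj_eq_iff_im.1 h4.symm
      have h3' : (ι' x).im = 0 := by
        have h4 := h1' x
        rw [hx c'] at h4
        exact Complex.conj_eq_iff_im.1 h4.symm
      rw [h3, h3']
  obtain ⟨g, hg⟩ := exists_smul_all Gd.cont ι ι' hagree
  have h3 : ∀ x : K, g • c' • x = c • g • x := by
    intro x
    apply ι.injective
    rw [← hg, h1', h1, hg]
  have h4 : (c * g)⁻¹ * (g * c') = 1 := by
    apply Gd.faith
    intro x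
    rw [mul_smul, inv_smul_eq_iff, mul_smul, mul_smul]
    exact h3 x
  refine ⟨g⁻¹, ?_⟩
  have h5 : g * c' = c * g := by
    rw [inv_mul_eq_one] at h4
    exact h4.symm
  rw [inv_inv, mul_assoc, ← h5, inv_mul_cancel_left]

end Galois

end Pool.Helper37.ETC
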