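import Pool.Agent.Helper37.ETC.Defs

/-!
# The ordered field of an involution
-/

set_option autoImplicit false

namespace Pool.Helper37.ETC

universe u v

section

variable {G : Type v} {K : Type u} [Group G] [Field K] [MulSemiringAction G K]

/-- the fixed field of `c` -/
def Rc (K : Type u) [Field K] [MulSemiringAction G K] (c : G) : Subfield K where
  carrier := {x | c • x = x}
  mul_mem' := by
    intro a b ha hb
    change c • (a * b) = a * b
    rw [smul_mul', ha, hb]
  one_mem' := smul_one c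
  add_mem' := by
    intro a b ha hb
    change c • (a + b) = a + b
    rw [smul_add, ha, hb]
  zero_mem' := smul_zero c
  neg_mem' := by
    intro a ha
    change c • (-a) = -a
    rw [smul_neg, ha]
  inv_mem' := by
    intro a ha
    change c • a⁻¹ = a⁻¹
    rw [smul_inv'', ha]

/-- the cone of squares -/
def coneC (c : G)
    (h1 : ∀ x ∈ (Pc c : Set K), ∀ y ∈ (Pc c : Set K), x + y ∈ (Pc c : Set K))
    (h3 : ∀ x ∈ (Pc c : Set K), -x ∉ (Pc c : Set K)) : RingCone (Rc K c) where
  carrier := {x | x = 0 ∨ (x : K) ∈ (Pc c : Set K)}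
  mul_mem' := by
    rintro a b (ha | ⟨ha, y, hy, hya⟩) (hb | ⟨hb, z, hz, hzb⟩)
    · left; rw [ha, zero_mul]
    · left; rw [ha, zero_mul]
    · left; rw [hb, mul_zero]
    · right
      refine ⟨mul_ne_zero ha hb, y * z, ?_, ?_⟩
      · rw [smul_mul', hy, hz]
      · rw [mul_pow, hya, hzb]; rfl
  one_mem' := by
    right
    exact ⟨one_ne_zero, 1, smul_one c, one_pow 2⟩
  add_mem' := by
    rintro a b (ha | ha) (hb | hb)
    · left; rw [ha, hb, add_zero]
    · right; rw [ha, zero_add]; exact hb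
    · right; rw [hb, add_zero]; exact ha
    · right; exact h1 _ ha _ hb
  zero_mem' := Or.inl rfl
  eq_zero_of_mem_of_neg_mem' := by
    rintro a (ha | ha) (hb | hb)
    · exact ha
    · exact ha
    · exact neg_eq_zero.1 hb
    · exact absurd hb (h3 _ ha)

/-- the ordered field of an involution -/
theorem exists_order (c : G)
    (h1 : ∀ x ∈ (Pc c : Set K), ∀ y ∈ (Pc c : Set K), x + y ∈ (Pc c : Set K))
    (h2 : ∀ x : K, x ≠ 0 → c • x = x → x ∈ (Pc c : Set K) ∨ -x ∈ (Pc c : Set K))
    (h3 : ∀ x ∈ (Pc c : Set K), -x ∉ (Pc c : Set K)) :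
    ∃ (R : Type u) (_ : Field R) (_ : LinearOrder R) (_ : IsStrictOrderedRing R) (j : R →+* K),
      (∀ x : K, c • x = x ↔ ∃ r, j r = x) ∧ (∀ r : R, 0 < r ↔ j r ∈ (Pc c : Set K)) := by
  classical
  let C := coneC (K := K) c h1 h3
  haveI hmn : HasMemOrNegMem C := ⟨fun a => by
    by_cases ha : a = 0
    · left; exact Or.inl ha
    · rcases h2 (a : K) (fun h => ha (Subtype.ext h)) a.2 with h | h
      · left; exact Or.inr h
      · right; exact Or.inr h⟩
  letI : LinearOrder (Rc K c) := LinearOrder.mkOfAddGroupCone C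
  haveI : IsOrderedRing (Rc K c) := IsOrderedRing.mkOfCone C
  haveI : IsStrictOrderedRing (Rc K c) := IsOrderedRing.toIsStrictOrderedRing _
  refine ⟨Rc K c, inferInstance, inferInstance, inferInstance, (Rc K c).subtype, ?_, ?_⟩
  · intro x
    exact ⟨fun h => ⟨⟨x, h⟩, rfl⟩, fun ⟨r, hr⟩ => by rw [← hr]; exact r.2⟩
  · intro r
    have h4 : (0 : Rc K c) ≤ r ↔ (r - 0 = 0 ∨ ((r - 0 : Rc K c) : K) ∈ (Pc c : Set K)) := Iff.rfl
    rw [sub_zero] at h4
    rw [lt_iff_le_and_ne, h4]
    constructor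
    · rintro ⟨h5 | h5, h6⟩
      · exact absurd h5.symm h6
      · exact h5
    · intro h5
      refine ⟨Or.inr h5, ?_⟩
      rintro rfl
      exact h5.1 rfl

end

end Pool.Helper37.ETC
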